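import Mathlib
import Pool.Agent.Helper40.Lin.Defs

open Filter Topology
open scoped InnerProductSpace ComplexConjugate

namespace Pool.Agent.Helper72.Lin

theorem hil_normsq {G : Type*} {H : Type*} [NormedAddCommGroup H] [InnerProductSpace ℂ H]
    {e : G → H} (he : Orthonormal ℂ e) (F : Finset G) (l : G → ℂ) :
    ‖∑ h ∈ F, l h • e h‖ ^ 2 = ∑ h ∈ F, ‖l h‖ ^ 2 := by
  have h1 := he.inner_sum l l F
  rw [inner_self_eq_norm_sq_to_K] at h1
  have h2 : ((‖∑ h ∈ F, l h • e h‖ ^ 2 : ℝ) : ℂ) = ((∑ h ∈ F, ‖l h‖ ^ 2 : ℝ) : ℂ) := by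
    push_cast
    refine h1.trans (Finset.sum_congr rfl fun h _ => ?_)
    rw [mul_comm, Complex.mul_conj, Complex.normSq_eq_norm_sq]
    push_cast
    rfl
  exact_mod_cast h2

/-- sums over the finitely supported measure -/
theorem hil_sum {G X : Type*} (F : Finset G) (κ : G → X) (a : G → ℝ) (f : X → ℝ) :
    ((∑ g ∈ F, Finsupp.single (κ g) (a g)).sum fun x b => b * f x) = ∑ g ∈ F, a g * f (κ g) := by
  classical
  induction F using Finset.induction_on with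
  | empty => simp
  | insert b F hb ih =>
    rw [Finset.sum_insert hb, Finset.sum_insert hb, Finsupp.sum_add_index', ih]
    · rw [Finsupp.sum_single_index]
      rw [zero_mul]
    · intro x
      rw [zero_mul]
    · intro x b1 b2
      rw [add_mul]

theorem hil_sum1 {G X : Type*} (F : Finset G) (κ : G → X) (a : G → ℝ) :
    ((∑ g ∈ F, Finsupp.single (κ g) (a g)).sum fun _ b => b) = ∑ g ∈ F, a g := by
  have h := hil_sum F κ a (fun _ => 1)
  simp only [mul_one] at h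
  exact h

theorem hil_nonneg {G X : Type*} (F : Finset G) (κ : G → X) (a : G → ℝ) (ha : ∀ g, 0 ≤ a g)
    (x : X) : 0 ≤ (∑ g ∈ F, Finsupp.single (κ g) (a g)) x := by
  classical
  rw [Finsupp.finsetSum_apply]
  apply Finset.sum_nonneg
  intro g _
  rw [Finsupp.single_apply]
  split_ifs
  · exact ha g
  · exact le_rfl

theorem hil_iter {X : Type*} (t : X ≃ X) (n : ℕ) (y : X) : t.symm^[n] (t^[n] y) = y := by
  have h : Function.LeftInverse (t.symm^[n]) (t^[n]) := by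
    apply Function.LeftInverse.iterate
    exact t.left_inv
  exact h y

/-- the bound for vectors of norm at most one -/
theorem hil_vec {G : Type*} [Group G] {H : Type*} [NormedAddCommGroup H] [InnerProductSpace ℂ H]
    {e : G → H} (he : Orthonormal ℂ e)
    (T : ℕ → H →L[ℂ] H) (x : ℕ → G) (hTi : ∀ n v, ‖T n v‖ = ‖v‖)
    (hT : ∀ n h, ∃ c : ℂ, T n (e h) = c • e (x n * h))
    {X : Type*} (t s : X ≃ X) (κin κout : G → X)
    (hκ : ∀ n γ, κout (x n * γ) = t^[n] (s^[n] (κin γ))) (δ : ℝ) (N : ℕ)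
    (hf : ∀ p p' : X →₀ ℝ, (∀ x, 0 ≤ p x) → (∀ x, 0 ≤ p' x) →
      (p.sum fun _ a => a) ≤ 1 → (p'.sum fun _ a => a) ≤ 1 →
      ∃ f : X → ℝ, (∀ x, 0 ≤ f x ∧ f x ≤ 1) ∧
        ∑ n ∈ Finset.range N, (p.sum fun x a => a * f (s^[n] x)) ≤ δ * N ∧
        ∑ n ∈ Finset.range N, (p'.sum fun x a => a * (1 - f (t.symm^[n] x))) ≤ δ * N)
    (c : ℕ → ℂ) (hc : ∀ n, ‖c n‖ ≤ 1) (F F' : Finset G) (l l' : G → ℂ)
    (hv : ‖∑ g ∈ F, l g • e g‖ ≤ 1) (hw : ‖∑ g ∈ F', l' g • e g‖ ≤ 1) :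
    ‖inner ℂ (∑ g ∈ F', l' g • e g) (∑ n ∈ Finset.range N, c n • T n (∑ g ∈ F, l g • e g))‖ ≤
      2 * √δ * N := by
  classical
  have hv2 : ∑ g ∈ F, ‖l g‖ ^ 2 ≤ 1 := by
    rw [← hil_normsq he]
    exact pow_le_one₀ (norm_nonneg _) hv
  have hw2 : ∑ g ∈ F', ‖l' g‖ ^ 2 ≤ 1 := by
    rw [← hil_normsq he]
    exact pow_le_one₀ (norm_nonneg _) hw
  obtain ⟨f, hf0, hf1, hf2⟩ := hf (∑ g ∈ F, Finsupp.single (κin g) (‖l g‖ ^ 2))
    (∑ g ∈ F', Finsupp.single (κout g) (‖l' g‖ ^ 2))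
    (hil_nonneg F κin _ fun g => by positivity) (hil_nonneg F' κout _ fun g => by positivity)
    (by rw [hil_sum1]; exact hv2) (by rw [hil_sum1]; exact hw2)
  have hf1' : ∑ n ∈ Finset.range N, ∑ g ∈ F, ‖l g‖ ^ 2 * f (s^[n] (κin g)) ≤ δ * N := by
    refine le_trans (le_of_eq (Finset.sum_congr rfl fun n _ => ?_)) hf1
    exact (hil_sum F κin _ (fun x => f (s^[n] x))).symm
  have hf2' : ∑ n ∈ Finset.range N, ∑ g ∈ F', ‖l' g‖ ^ 2 * (1 - f (t.symm^[n] (κout g))) ≤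
      δ * N := by
    refine le_trans (le_of_eq (Finset.sum_congr rfl fun n _ => ?_)) hf2
    exact (hil_sum F' κout _ (fun x => 1 - f (t.symm^[n] x))).symm
  set v := ∑ g ∈ F, l g • e g with hvdef
  set w := ∑ g ∈ F', l' g • e g with hwdef
  let v1 : ℕ → H := fun n => ∑ g ∈ F, ((f (s^[n] (κin g)) : ℂ) * l g) • e g
  let w2 : ℕ → H := fun n => ∑ g ∈ F', (((1 - f (t.symm^[n] (κout g)) : ℝ) : ℂ) * l' g) • e g
  have hv1 : ∀ n, ‖v1 n‖ ^ 2 ≤ ∑ g ∈ F, ‖l g‖ ^ 2 * f (s^[n] (κin g)) := by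
    intro n
    simp only [v1]
    rw [hil_normsq he]
    apply Finset.sum_le_sum
    intro g _
    have h0 := (hf0 (s^[n] (κin g))).1
    have h1 := (hf0 (s^[n] (κin g))).2
    rw [norm_mul, mul_pow, Complex.norm_real, Real.norm_eq_abs, sq_abs]
    have : f (s^[n] (κin g)) ^ 2 ≤ f (s^[n] (κin g)) := by nlinarith
    nlinarith [sq_nonneg ‖l g‖]
  have hw2 : ∀ n, ‖w2 n‖ ^ 2 ≤ ∑ g ∈ F', ‖l' g‖ ^ 2 * (1 - f (t.symm^[n] (κout g))) := by
    intro n
    simp only [w2]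
    rw [hil_normsq he]
    apply Finset.sum_le_sum
    intro g _
    have h0 := (hf0 (t.symm^[n] (κout g))).1
    have h1 := (hf0 (t.symm^[n] (κout g))).2
    rw [norm_mul, mul_pow, Complex.norm_real, Real.norm_eq_abs, sq_abs]
    have : (1 - f (t.symm^[n] (κout g))) ^ 2 ≤ 1 - f (t.symm^[n] (κout g)) := by nlinarith
    nlinarith [sq_nonneg ‖l' g‖]
  -- the splitting
  have hsplit : ∀ n, inner ℂ w (T n v) = inner ℂ w (T n (v1 n)) + inner ℂ (w2 n) (T n v) := by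
    intro n
    have e1 : inner ℂ w (T n v) = ∑ g' ∈ F', ∑ g ∈ F,
        conj (l' g') * l g * inner ℂ (e g') (T n (e g)) := by
      rw [hwdef, hvdef, map_sum, sum_inner]
      refine Finset.sum_congr rfl fun g' _ => ?_
      rw [inner_sum]
      refine Finset.sum_congr rfl fun g _ => ?_
      rw [map_smul, inner_smul_left, inner_smul_right]
      ring
    have e2 : inner ℂ w (T n (v1 n)) = ∑ g' ∈ F', ∑ g ∈ F,
        conj (l' g') * ((f (s^[n] (κin g)) : ℂ) * l g) * inner ℂ (e g') (T n (e g)) := by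
      simp only [v1]
      rw [hwdef, map_sum, sum_inner]
      refine Finset.sum_congr rfl fun g' _ => ?_
      rw [inner_sum]
      refine Finset.sum_congr rfl fun g _ => ?_
      rw [map_smul, inner_smul_left, inner_smul_right]
      ring
    have e3 : inner ℂ (w2 n) (T n v) = ∑ g' ∈ F', ∑ g ∈ F,
        conj (((1 - f (t.symm^[n] (κout g')) : ℝ) : ℂ) * l' g') * l g *
          inner ℂ (e g') (T n (e g)) := by
      simp only [w2]
      rw [hvdef, map_sum, sum_inner]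
      refine Finset.sum_congr rfl fun g' _ => ?_
      rw [inner_sum]
      refine Finset.sum_congr rfl fun g _ => ?_
      rw [map_smul, inner_smul_left, inner_smul_right]
      ring
    rw [e1, e2, e3, ← Finset.sum_add_distrib]
    refine Finset.sum_congr rfl fun g' _ => ?_
    rw [← Finset.sum_add_distrib]
    refine Finset.sum_congr rfl fun g _ => ?_
    by_cases hg : g' = x n * g
    · have h1 : t.symm^[n] (κout g') = s^[n] (κin g) := by
        rw [hg, hκ, hil_iter]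
      rw [h1, map_mul, Complex.conj_ofReal]
      push_cast
      ring
    · obtain ⟨a, ha⟩ := hT n g
      rw [ha, inner_smul_right, he.2 hg]
      ring
  have hbound : ∀ n, ‖inner ℂ w (T n v)‖ ≤ ‖v1 n‖ + ‖w2 n‖ := by
    intro n
    rw [hsplit n]
    refine (norm_add_le _ _).trans (add_le_add ?_ ?_)
    · refine (norm_inner_le_norm _ _).trans ?_
      rw [hTi]
      exact mul_le_of_le_one_left (norm_nonneg _) hw
    · refine (norm_inner_le_norm _ _).trans ?_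
      rw [hTi]
      exact mul_le_of_le_one_right (norm_nonneg _) hv
  have hCS : ∀ (y : ℕ → H), ∑ n ∈ Finset.range N, ‖y n‖ ^ 2 ≤ δ * N →
      ∑ n ∈ Finset.range N, ‖y n‖ ≤ √δ * N := by
    intro y hy
    have h1 : ∑ n ∈ Finset.range N, 1 * ‖y n‖ ≤
        √(∑ n ∈ Finset.range N, (1 : ℝ) ^ 2) * √(∑ n ∈ Finset.range N, ‖y n‖ ^ 2) :=
      Real.sum_mul_le_sqrt_mul_sqrt _ _ _
    simp only [one_mul, one_pow, Finset.sum_const, Finset.card_range, nsmul_eq_mul, mul_one] at h1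
    rcases Nat.eq_zero_or_pos N with hN | hN
    · subst hN
      simp
    have hNr : (0 : ℝ) < N := by exact_mod_cast hN
    calc ∑ n ∈ Finset.range N, ‖y n‖ ≤ √(N : ℝ) * √(∑ n ∈ Finset.range N, ‖y n‖ ^ 2) := h1
      _ ≤ √(N : ℝ) * √(δ * N) := by gcongr
      _ = √δ * N := by
        rw [mul_comm δ, Real.sqrt_mul hNr.le, ← mul_assoc, Real.mul_self_sqrt hNr.le, mul_comm]
  have hA := hCS v1 ((Finset.sum_le_sum fun n _ => hv1 n).trans hf1')
  have hB := hCS w2 ((Finset.sum_le_sum fun n _ => hw2 n).trans hf2')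
  rw [inner_sum]
  calc ‖∑ n ∈ Finset.range N, inner ℂ w (c n • T n v)‖
      ≤ ∑ n ∈ Finset.range N, ‖inner ℂ w (c n • T n v)‖ := norm_sum_le _ _
    _ ≤ ∑ n ∈ Finset.range N, (‖v1 n‖ + ‖w2 n‖) := by
        refine Finset.sum_le_sum fun n _ => ?_
        rw [inner_smul_right, norm_mul]
        exact (mul_le_of_le_one_left (norm_nonneg _) (hc n)).trans (hbound n)
    _ ≤ 2 * √δ * N := by
        rw [Finset.sum_add_distrib]
        linarith

/-- the Hilbert space inequality -/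
theorem HIL {G : Type*} [Group G] {H : Type*} [NormedAddCommGroup H] [InnerProductSpace ℂ H]
    [CompleteSpace H] {e : G → H} (he : Orthonormal ℂ e)
    (hd : Dense ((Submodule.span ℂ (Set.range e) : Submodule ℂ H) : Set H))
    (T : ℕ → H →L[ℂ] H) (x : ℕ → G) (hTi : ∀ n v, ‖T n v‖ = ‖v‖)
    (hT : ∀ n h, ∃ c : ℂ, T n (e h) = c • e (x n * h))
    {X : Type*} (t s : X ≃ X) (κin κout : G → X)
    (hκ : ∀ n γ, κout (x n * γ) = t^[n] (s^[n] (κin γ))) (δ : ℝ) (N : ℕ)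
    (hf : ∀ p p' : X →₀ ℝ, (∀ x, 0 ≤ p x) → (∀ x, 0 ≤ p' x) →
      (p.sum fun _ a => a) ≤ 1 → (p'.sum fun _ a => a) ≤ 1 →
      ∃ f : X → ℝ, (∀ x, 0 ≤ f x ∧ f x ≤ 1) ∧
        ∑ n ∈ Finset.range N, (p.sum fun x a => a * f (s^[n] x)) ≤ δ * N ∧
        ∑ n ∈ Finset.range N, (p'.sum fun x a => a * (1 - f (t.symm^[n] x))) ≤ δ * N)
    (c : ℕ → ℂ) (hc : ∀ n, ‖c n‖ ≤ 1) :
    ‖∑ n ∈ Finset.range N, c n • T n‖ ≤ 2 * √δ * N := by
  classical
  set S : H →L[ℂ] H := ∑ n ∈ Finset.range N, c n • T n with hS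
  have hSv : ∀ v, S v = ∑ n ∈ Finset.range N, c n • T n v := by
    intro v
    rw [hS, _root_.sum_apply]
    rfl
  -- unit vectors of the span
  have h1 : ∀ v ∈ Submodule.span ℂ (Set.range e), ∀ w ∈ Submodule.span ℂ (Set.range e),
      ‖v‖ ≤ 1 → ‖w‖ ≤ 1 → ‖inner ℂ w (S v)‖ ≤ 2 * √δ * N := by
    intro v hv w hw hv1 hw1
    obtain ⟨l, rfl⟩ := (Finsupp.mem_span_range_iff_exists_finsupp).1 hv
    obtain ⟨l', rfl⟩ := (Finsupp.mem_span_range_iff_exists_finsupp).1 hw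
    rw [hSv]
    exact hil_vec he T x hTi hT t s κin κout hκ δ N hf c hc l.support l'.support l l' hv1 hw1
  have hB : 0 ≤ 2 * √δ * (N : ℝ) := by positivity
  -- all vectors of the span
  have h2 : ∀ v ∈ Submodule.span ℂ (Set.range e), ∀ w ∈ Submodule.span ℂ (Set.range e),
      ‖inner ℂ w (S v)‖ ≤ 2 * √δ * N * ‖v‖ * ‖w‖ := by
    intro v hv w hw
    by_cases hv0 : v = 0
    · subst hv0
      simp
    by_cases hw0 : w = 0
    · subst hw0
      simp
    have hv1 : 0 < ‖v‖ := norm_pos_iff.2 hv0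
    have hw1 : 0 < ‖w‖ := norm_pos_iff.2 hw0
    have h3 := h1 (((‖v‖⁻¹ : ℝ) : ℂ) • v) (Submodule.smul_mem _ _ hv)
      (((‖w‖⁻¹ : ℝ) : ℂ) • w) (Submodule.smul_mem _ _ hw)
      (by rw [norm_smul, Complex.norm_real, norm_inv, norm_norm, inv_mul_cancel₀ hv1.ne'])
      (by rw [norm_smul, Complex.norm_real, norm_inv, norm_norm, inv_mul_cancel₀ hw1.ne'])
    rw [map_smul, inner_smul_left, inner_smul_right, norm_mul, norm_mul, RCLike.norm_conj,
      Complex.norm_real, Complex.norm_real, norm_inv, norm_inv, norm_norm, norm_norm] at h3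
    have h4 : ‖inner ℂ w (S v)‖ = ‖v‖ * ‖w‖ * (‖w‖⁻¹ * (‖v‖⁻¹ * ‖inner ℂ w (S v)‖)) := by
      field_simp
    rw [h4]
    calc ‖v‖ * ‖w‖ * (‖w‖⁻¹ * (‖v‖⁻¹ * ‖inner ℂ w (S v)‖))
        ≤ ‖v‖ * ‖w‖ * (2 * √δ * N) := by gcongr
      _ = 2 * √δ * N * ‖v‖ * ‖w‖ := by ring
  -- all w
  have h3 : ∀ v ∈ Submodule.span ℂ (Set.range e), ∀ w : H,
      ‖inner ℂ w (S v)‖ ≤ 2 * √δ * N * ‖v‖ * ‖w‖ := by
    intro v hv w
    have hcl : IsClosed {w : H | ‖inner ℂ w (S v)‖ ≤ 2 * √δ * N * ‖v‖ * ‖w‖} :=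
      isClosed_le (by fun_prop) (by fun_prop)
    exact closure_minimal (fun w hw => h2 v hv w hw) hcl (hd w)
  have h4 : ∀ v ∈ Submodule.span ℂ (Set.range e), ‖S v‖ ≤ 2 * √δ * N * ‖v‖ := by
    intro v hv
    have h5 := h3 v hv (S v)
    have h6 : ‖inner ℂ (S v) (S v)‖ = ‖S v‖ * ‖S v‖ := by
      rw [inner_self_eq_norm_sq_to_K, norm_pow, RCLike.norm_ofReal, abs_norm, sq]
    rw [h6] at h5
    rcases (norm_nonneg (S v)).eq_or_lt with h7 | h7
    · rw [← h7]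
      positivity
    · exact le_of_mul_le_mul_right h5 h7
  apply ContinuousLinearMap.opNorm_le_bound _ hB
  intro v
  have hcl : IsClosed {v : H | ‖S v‖ ≤ 2 * √δ * N * ‖v‖} :=
    isClosed_le (by fun_prop) (by fun_prop)
  exact closure_minimal (fun v hv => h4 v hv) hcl (hd v)

end Pool.Agent.Helper72.Lin
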